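import Pool.Agent.W2helper58.GF.Stm
import Pool.Agent.H620R2.Gauge2.Null
import Pool.Agent.H620R2.GaugeX.NonNullX

/-!
# The upper bound: for most oracles the oracle itself is a generator
-/

namespace Pool.Agent.W2helper58.GF

open Pool.Agent.NPC Pool.Agent.H620R2.Gauge Pool.Agent.H622R2

theorem length_sadr (s : List Bool) {b j : ℕ} (hj : j ≤ b) :
    (sadr s b j).length = s.length + b := by
  unfold sadr
  simp only [List.length_append, List.length_replicate]
  omega

theorem sadr_inj {s s' : List Bool} {b j j' : ℕ} (hs : s.length = s'.length)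
    (h : sadr s b j = sadr s' b j') : s = s' ∧ j = j' := by
  unfold sadr at h
  obtain ⟨h5, h6⟩ := List.append_inj h hs
  refine ⟨h5, ?_⟩
  have h7 := congrArg (fun l : List Bool => (l.filter (fun b => b)).length) h6
  simpa using h7

/-- the part of the generator -/
theorem null_gen (hcov : P_cover) (hlim : P_limsup) (hcount : P_count) {f : ℕ → ℝ} {K : ℕ}
    (hK : ∀ᶠ m : ℕ in Filter.atTop, ∃ N : ℕ, 2 ^ (K * Nat.size m + m + 1) ≤ N ∧
      (2 : ℝ) ^ ((m + 3) ^ 3) * (2 * Real.exp (-(2 ^ (K * Nat.size m) : ℝ) / 256)) * 2 ^ f N ≤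
        (1 / 2) ^ m) :
    Null f {A | ∃ᶠ m : ℕ in Filter.atTop, BadG K m A} := by
  classical
  refine hlim f (fun m => {A | BadG K m A}) ?_
  filter_upwards [hK] with m hm
  obtain ⟨N, hN, hb⟩ := hm
  obtain ⟨s, hs1, hs2, hs3⟩ := hcount m
  obtain ⟨S, hS1, hS2⟩ := hcov (Fin (K * Nat.size m) → Bool) s m (K * Nat.size m + m) N hN
    (fun r j => sadr (List.ofFn r) m j)
    (fun r i r' i' h => by
      obtain ⟨h1, h2⟩ := sadr_inj (by simp) h
      exact ⟨List.ofFn_injective h1, Fin.ext h2⟩)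
    (fun r i => by rw [length_sadr _ i.2.le, List.length_ofFn])
    (fun C A v => C.1.eval A (List.ofFn v) = true)
    (fun C A A' h => by
      funext v
      rw [hs2 C.1 C.2 A A' (fun y hy => h y (by omega))]) f ((1 / 2) ^ m) (by
      refine le_trans ?_ hb
      have h1 : (Fintype.card s : ℝ) ≤ 2 ^ ((m + 3) ^ 3) := by
        rw [Fintype.card_coe]
        exact_mod_cast hs1
      have h2 : ((Fintype.card (Fin (K * Nat.size m) → Bool) : ℕ) : ℝ) =
          2 ^ (K * Nat.size m) := by simp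
      rw [h2]
      gcongr)
  refine ⟨S, ?_, hS2⟩
  rintro A ⟨C, hC, hlt⟩
  obtain ⟨C', hC', he⟩ := hs3 C hC
  apply hS1 A
  refine ⟨⟨C', hC'⟩, ?_⟩
  have e1 : ∀ v : Fin m → Bool, C'.eval A (List.ofFn v) = C.eval A (List.ofFn v) :=
    fun v => he A _ (List.length_ofFn)
  simp only [e1]
  have h2 : ((Fintype.card (Fin (K * Nat.size m) → Bool) : ℕ) : ℝ) =
      2 ^ (K * Nat.size m) := by simp
  rw [h2]
  exact hlt

/-- the bound for the questions of the machine -/
theorem exists_b (M : Alg) (p : Polynomial ℕ) : ∃ b : Polynomial ℕ, (∀ n, n + 1 ≤ b.eval n) ∧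
    (∀ n, p.eval n ≤ b.eval n) ∧ ∀ (n : ℕ) (w x : List Bool), w.length = p.eval n →
      x.length = n → ∀ A A' : Oracle, (∀ y : List Bool, y.length < b.eval n → A y = A' y) →
        M.out A (pairBits w x) = M.out A' (pairBits w x) := by
  obtain ⟨qb, hqb⟩ := Alg.out_local M
  refine ⟨qb.comp (Polynomial.C 2 * p + Polynomial.C 1 + Polynomial.X) + p + Polynomial.X +
    Polynomial.C 1, fun n => ?_, fun n => ?_, ?_⟩
  · simp only [Polynomial.eval_add, Polynomial.eval_X, Polynomial.eval_C]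
    omega
  · simp only [Polynomial.eval_add, Polynomial.eval_X, Polynomial.eval_C]
    omega
  · intro n w x hw hx A A' h
    obtain ⟨Q, _, hQ2, hQ3⟩ := hqb A' (pairBits w x)
    apply hQ3
    intro q hq
    apply h
    have h1 := hQ2 q hq
    rw [Pool.Agent.H620R2.Gauge.length_pairBits, hw, hx] at h1
    simp only [Polynomial.eval_add, Polynomial.eval_X, Polynomial.eval_C, Polynomial.eval_comp,
      Polynomial.eval_mul]
    omega

/-- the part of BPP -/
theorem null_bpp (hcov : P_cover) (hlim : P_limsup) (hasym : P_asymB) {f : ℕ → ℝ} {C : ℕ}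
    (hC : ∀ᶠ N : ℕ in Filter.atTop, ∃ N' ≥ N, f N' ≤ (Real.logb 2 N) ^ C) (M : Alg)
    (p b : Polynomial ℕ) (hb1 : ∀ n, n + 1 ≤ b.eval n) (hb2 : ∀ n, p.eval n ≤ b.eval n)
    (hb3 : ∀ (n : ℕ) (w x : List Bool), w.length = p.eval n →
      x.length = n → ∀ A A' : Oracle, (∀ y : List Bool, y.length < b.eval n → A y = A' y) →
        M.out A (pairBits w x) = M.out A' (pairBits w x)) :
    Null f {A | ∃ᶠ n : ℕ in Filter.atTop, BadB M p b C n A} := by
  classical
  refine hlim f (fun n => {A | BadB M p b C n A}) ?_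
  filter_upwards [hasym f C b hC hb1] with n hn
  obtain ⟨N, hN, hb⟩ := hn
  have hT : 0 < (smpT b C).eval n := by
    unfold smpT
    simp only [Polynomial.eval_add, Polynomial.eval_X, Polynomial.eval_C, Polynomial.eval_mul,
      Polynomial.eval_pow]
    omega
  have hne : Nonempty (Fin ((smpT b C).eval n)) := ⟨⟨0, hT⟩⟩
  obtain ⟨S, hS1, hS2⟩ := hcov (Fin ((smpT b C).eval n)) (Fin n → Bool) (p.eval n)
    (Nat.size ((smpT b C).eval n) + b.eval n) N hN
    (fun i j => sadr (bitsOf (Nat.size ((smpT b C).eval n)) i) (b.eval n) j)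
    (fun i j i' j' h => by
      obtain ⟨h1, h2⟩ := sadr_inj (by rw [length_bitsOf, length_bitsOf]) h
      have h3 : (smpT b C).eval n < 2 ^ Nat.size ((smpT b C).eval n) := Nat.lt_size_self _
      have h4 := bitsOf_inj (i.2.trans h3) (i'.2.trans h3) h1
      exact ⟨Fin.ext h4, Fin.ext h2⟩)
    (fun i j => by rw [length_sadr _ (j.2.le.trans (hb2 n)), length_bitsOf])
    (fun x A v => M.out A (pairBits (List.ofFn v) (List.ofFn x)) = some [true])
    (fun x A A' h => by
      funext v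
      rw [hb3 n _ _ (List.length_ofFn) (List.length_ofFn) A A' (fun y hy => h y (by omega))])
    f ((1 / 2) ^ n) (by
      refine le_trans (le_of_eq ?_) hb
      simp)
  refine ⟨S, ?_, hS2⟩
  rintro A ⟨x, hx, hlt⟩
  apply hS1 A
  subst hx
  refine ⟨x.get, ?_⟩
  have e1 : List.ofFn x.get = x := List.ofFn_get x
  simp only [e1, Fintype.card_fin]
  exact hlt

/-- The upper bound. -/
theorem upper (hcov : P_cover) (hlim : P_limsup) (hcount : P_count) (hgen : P_gen)
    (hasymG : P_asymG) (hvotes : P_votes) (hasymB : P_asymB) {f : ℕ → ℝ} (hf : Cond f)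
    (O : Set Oracle) (hO : ∀ A ∈ O, ¬ LogGenerator A ∨ ∃ L, InBPP A L ∧ ¬ IsP A L) :
    Null f O := by
  obtain ⟨C, hC⟩ := hf
  obtain ⟨K, hK⟩ := hasymG f C hC
  have hG := null_gen hcov hlim hcount hK
  have h1 := CC.poly_countable
  choose b hb1 hb2 hb3 using fun θ : Alg × Polynomial ℕ => exists_b θ.1 θ.2
  have hB := null_iUnion (f := f) (fun θ : Alg × Polynomial ℕ =>
    {A | ∃ᶠ n : ℕ in Filter.atTop, BadB θ.1 θ.2 (b θ) C n A})
    (fun θ => null_bpp hcov hlim hasymB hC θ.1 θ.2 (b θ) (hb1 θ) (hb2 θ) (hb3 θ))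
  refine (null_union hG hB).mono ?_
  intro A hA
  rcases hO A hA with h | ⟨L, ⟨V, p, ⟨M, hM⟩, hL⟩, hP⟩
  · left
    by_contra hcon
    apply h
    apply hgen K A
    exact Filter.not_frequently.1 hcon
  · right
    rw [Set.mem_iUnion]
    refine ⟨(M, p), ?_⟩
    by_contra hcon
    apply hP
    exact hvotes A M V p (b (M, p)) C L hM (Filter.not_frequently.1 hcon) hL

end Pool.Agent.W2helper58.GF
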