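import Pool.Agent.W2helper58.GF.Stm
import Pool.Agent.H620R2.GaugeR.R8

/-!
# The construction: blocks with planted bits
-/

namespace Pool.Agent.W2helper58.GF

open Pool.Agent.NPC Pool.Agent.H620R2.Gauge Pool.Agent.H622R2

/-- the length of the strings of a block -/
def ln (n k : ℕ) : ℕ := 7 * n + 3 * k + 4

theorem length_un (m : ℕ) : (un m).length = m := List.length_replicate

theorem length_adr (n k : ℕ) (b : Bool) (r : List Bool) (j : ℕ) (hr : r.length = k)
    (hj : j < 3 * n) : (adr n k b r j).length = ln n k := by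
  unfold adr inp ln
  rw [Pool.Agent.H620R2.Gauge.length_pairBits, Pool.Agent.H620R2.Gauge.length_pairBits]
  simp only [List.length_replicate, List.length_cons, List.length_append, hr]
  omega

theorem pairBits_inj {x y x' y' : List Bool} (h : pairBits x y = pairBits x' y') :
    x = x' ∧ y = y' := by
  have h1 := congrArg unpair h
  rw [unpair_pairBits, unpair_pairBits, Prod.mk.injEq] at h1
  exact h1

theorem inp_inj {n k n' k' : ℕ} (h : inp n k = inp n' k') : n = n' ∧ k = k' := by
  obtain ⟨h1, h2⟩ := pairBits_inj h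
  have h3 := congrArg List.length h1
  have h4 := congrArg List.length h2
  simp only [List.length_replicate] at h3 h4
  exact ⟨h3, h4⟩

theorem adr_inj {n k n' k' : ℕ} {b b' : Bool} {r r' : List Bool} {j j' : ℕ}
    (hr : r.length = k) (hr' : r'.length = k') (hj : j < 3 * n) (hj' : j' < 3 * n')
    (h : adr n k b r j = adr n' k' b' r' j') :
    n = n' ∧ k = k' ∧ b = b' ∧ r = r' ∧ j = j' := by
  obtain ⟨h1, h2⟩ := pairBits_inj h
  obtain ⟨rfl, rfl⟩ := inp_inj h1
  rw [List.cons.injEq] at h2
  obtain ⟨h3, h4⟩ := h2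
  obtain ⟨h5, h6⟩ := List.append_inj h4 (by rw [hr, hr'])
  refine ⟨rfl, rfl, h3, h5, ?_⟩
  have h7 := congrArg (fun l : List Bool => (l.filter (fun b => b)).length) h6
  simpa using h7

/-- The data of the construction. -/
structure Stg : Type where
  /-- the requirement of stage `i` -/
  g : ℕ → Rq
  /-- the block of stage `i` -/
  n : ℕ → ℕ
  /-- the block of stage `i` -/
  k : ℕ → ℕ
  /-- the strings asked at stage `i` -/
  Q : ℕ → Oracle → Finset (List Bool)
  /-- a bound for their number and length -/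
  w : ℕ → ℕ
  hcard : ∀ i B, (Q i B).card ≤ w i
  hlen : ∀ i B, ∀ q ∈ Q i B, q.length ≤ w i
  hloc : ∀ i B B', (∀ q ∈ Q i B, B' q = B q) →
    rval (n i) (k i) B' (g i) = rval (n i) (k i) B (g i)
  hk1 : ∀ i, 1 ≤ k i
  hkn : ∀ i, k i ≤ n i
  hw : ∀ i, 16 * (w i + 1) ≤ 2 ^ k i
  hstep : ∀ i j, i < j → outLen (n i) (k i) + w i < n j

namespace Stg

variable (S : Stg)

/-- length of the strings of stage `i` -/
def l (i : ℕ) : ℕ := ln (S.n i) (S.k i)

theorem lt_l (i : ℕ) : i < S.l i := by
  induction i with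
  | zero => unfold l ln; omega
  | succ i ih =>
    have h := S.hstep i (i + 1) (Nat.lt_succ_self i)
    unfold l ln at ih ⊢
    unfold outLen at h
    omega

theorem n_lt {i j : ℕ} (h : i < j) : S.l i < S.n j := by
  have h1 := S.hstep i j h
  unfold l ln
  unfold outLen at h1
  omega

theorem l_lt {i j : ℕ} (h : i < j) : S.l i < S.l j := by
  have h1 := S.n_lt h
  unfold l ln at *
  omega

theorem l_le {i j : ℕ} (h : i ≤ j) : S.l i ≤ S.l j := by
  rcases Nat.lt_or_eq_of_le h with h | rfl
  · exact (S.l_lt h).le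
  · exact le_rfl

open Classical in
/-- the flags of the block of stage `i` are set -/
noncomputable def flag (i : ℕ) (B : Oracle) : Oracle := fun y =>
  if ∃ j < 3 * S.n i, y = adr (S.n i) (S.k i) false (List.replicate (S.k i) false) j then true
  else B y

open Classical in
/-- the bit which is planted -/
noncomputable def bt (i : ℕ) (B : Oracle) : Bool :=
  decide (2 * (rval (S.n i) (S.k i) B (S.g i)).2 ≤ 2 ^ (rval (S.n i) (S.k i) B (S.g i)).1)

open Classical in
/-- stage `i` -/
noncomputable def plant (i : ℕ) (B : Oracle) : Oracle := fun y =>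
  if (∃ (r : List Bool) (j : ℕ), r.length = S.k i ∧ j < 3 * S.n i ∧
      y = adr (S.n i) (S.k i) true r j) ∧ y ∉ S.Q i (S.flag i B) then S.bt i (S.flag i B)
  else S.flag i B y

/-- the oracle before stage `i` -/
noncomputable def BB : ℕ → Oracle → Oracle
  | 0, A => A
  | i + 1, A => S.plant i (BB i A)

/-- the final oracle -/
noncomputable def Phi (A : Oracle) : Oracle := fun y => S.BB y.length A y

theorem flag_of_ne (i : ℕ) (B : Oracle) {y : List Bool}
    (h : ∀ (b : Bool) (r : List Bool) (j : ℕ), r.length = S.k i → j < 3 * S.n i →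
      y ≠ adr (S.n i) (S.k i) b r j) : S.flag i B y = B y := by
  unfold flag
  rw [if_neg]
  rintro ⟨j, hj, rfl⟩
  exact h false _ j (List.length_replicate) hj rfl

theorem plant_of_ne (i : ℕ) (B : Oracle) {y : List Bool}
    (h : ∀ (b : Bool) (r : List Bool) (j : ℕ), r.length = S.k i → j < 3 * S.n i →
      y ≠ adr (S.n i) (S.k i) b r j) : S.plant i B y = B y := by
  unfold plant
  rw [if_neg, S.flag_of_ne i B h]
  rintro ⟨⟨r, j, hr, hj, rfl⟩, -⟩
  exact h true r j hr hj rfl

theorem plant_of_len (i : ℕ) (B : Oracle) {y : List Bool} (h : y.length ≠ S.l i) :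
    S.plant i B y = B y := by
  apply S.plant_of_ne
  rintro b r j hr hj rfl
  exact h (length_adr _ _ _ _ _ hr hj)

theorem flag_of_len (i : ℕ) (B : Oracle) {y : List Bool} (h : y.length ≠ S.l i) :
    S.flag i B y = B y := by
  apply S.flag_of_ne
  rintro b r j hr hj rfl
  exact h (length_adr _ _ _ _ _ hr hj)

theorem BB_stable (A : Oracle) {y : List Bool} {i j : ℕ} (hij : i ≤ j)
    (h : ∀ m, i ≤ m → m < j → y.length ≠ S.l m) : S.BB j A y = S.BB i A y := by
  induction j, hij using Nat.le_induction with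
  | base => rfl
  | succ j hj ih =>
    change S.plant j (S.BB j A) y = _
    rw [S.plant_of_len j _ (h j hj (Nat.lt_succ_self j))]
    exact ih fun m h1 h2 => h m h1 (h2.trans (Nat.lt_succ_self j))

theorem Phi_eq (A : Oracle) {y : List Bool} {i : ℕ} (h : y.length < S.l i) :
    S.Phi A y = S.BB i A y := by
  unfold Phi
  rcases le_total i y.length with h1 | h1
  · refine S.BB_stable A h1 fun m hm _ => ?_
    have := S.l_le hm
    omega
  · refine (S.BB_stable A h1 fun m hm _ => ?_).symm
    have := S.lt_l m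
    omega

/-- before stage `i`, the strings of the block are untouched -/
theorem BB_len (A : Oracle) {y : List Bool} {i : ℕ} (h : y.length = S.l i) :
    S.BB i A y = A y := by
  have h1 : S.BB i A y = S.BB 0 A y := by
    refine S.BB_stable A (Nat.zero_le i) fun m _ hm => ?_
    have := S.l_lt hm
    omega
  exact h1

theorem Phi_succ (A : Oracle) {y : List Bool} {i : ℕ} (h : y.length ≤ S.l i + S.w i) :
    S.Phi A y = S.plant i (S.BB i A) y := by
  refine S.Phi_eq A (i := i + 1) ?_
  have h1 := S.hstep i (i + 1) (Nat.lt_succ_self i)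
  unfold outLen at h1
  unfold l ln at *
  omega

theorem Phi_Q (A : Oracle) (i : ℕ) {q : List Bool} (hq : q ∈ S.Q i (S.flag i (S.BB i A))) :
    S.Phi A q = S.flag i (S.BB i A) q := by
  rw [S.Phi_succ A (i := i) (by have := S.hlen i _ q hq; omega)]
  unfold plant
  rw [if_neg]
  rintro ⟨-, h⟩
  exact h hq

/-- the requirement has the same value for the final oracle -/
theorem rval_Phi (A : Oracle) (i : ℕ) : rval (S.n i) (S.k i) (S.Phi A) (S.g i) =
    rval (S.n i) (S.k i) (S.flag i (S.BB i A)) (S.g i) :=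
  S.hloc i _ _ fun _ hq => S.Phi_Q A i hq

/-- the bit of stage `i` -/
noncomputable def bit (A : Oracle) (i : ℕ) : Bool := S.bt i (S.flag i (S.BB i A))

theorem bit_eq (A : Oracle) (i : ℕ) : S.bit A i = true ↔
    2 * (rval (S.n i) (S.k i) (S.Phi A) (S.g i)).2 ≤
      2 ^ (rval (S.n i) (S.k i) (S.Phi A) (S.g i)).1 := by
  rw [S.rval_Phi A i]
  unfold bit bt
  rw [decide_eq_true_eq]

theorem flagged (A : Oracle) (i : ℕ) : Flagged (S.Phi A) (S.n i) (S.k i) := by
  intro j hj
  have hl : (adr (S.n i) (S.k i) false (List.replicate (S.k i) false) j).length = S.l i :=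
    length_adr _ _ _ _ _ (List.length_replicate) hj
  rw [S.Phi_succ A (i := i) (by omega)]
  unfold plant
  rw [if_neg]
  · unfold flag
    rw [if_pos ⟨j, hj, rfl⟩]
  · rintro ⟨⟨r, j', hr, hj', h⟩, -⟩
    have := adr_inj (List.length_replicate) hr hj hj' h
    simp at this

/-- strings of the cells which are not asked have the planted bit -/
theorem cell_bit (A : Oracle) (i : ℕ) {r : List Bool} (hr : r.length = S.k i) {j : ℕ}
    (hj : j < 3 * S.n i)
    (h : adr (S.n i) (S.k i) true r j ∉ S.Q i (S.flag i (S.BB i A))) :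
    S.Phi A (adr (S.n i) (S.k i) true r j) = S.bit A i := by
  have hl : (adr (S.n i) (S.k i) true r j).length = S.l i := length_adr _ _ _ _ _ hr hj
  rw [S.Phi_succ A (i := i) (by omega)]
  unfold plant
  rw [if_pos ⟨⟨r, j, hr, hj, rfl⟩, h⟩]
  rfl

theorem flag_true (A : Oracle) (i : ℕ) {r : List Bool} (hr : r.length = S.k i) {j : ℕ}
    (hj : j < 3 * S.n i) : S.flag i (S.BB i A) (adr (S.n i) (S.k i) true r j) =
      A (adr (S.n i) (S.k i) true r j) := by
  have hl : (adr (S.n i) (S.k i) true r j).length = S.l i := length_adr _ _ _ _ _ hr hj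
  unfold flag
  rw [if_neg]
  · exact S.BB_len A hl
  · rintro ⟨j', hj', h⟩
    have := adr_inj hr (List.length_replicate) hj hj' h
    simp at this

/-- a constant cell has the planted bit -/
theorem cell_ne (A : Oracle) (i : ℕ) {r : List Bool} (hr : r.length = S.k i)
    (hA : ∀ c, ¬ Cell A (S.n i) (S.k i) r c) {c : Bool}
    (h : Cell (S.Phi A) (S.n i) (S.k i) r c) : c = S.bit A i := by
  by_contra hne
  apply hA c
  intro j hj
  have h1 := h j hj
  by_cases hq : adr (S.n i) (S.k i) true r j ∈ S.Q i (S.flag i (S.BB i A))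
  · rw [S.Phi_Q A i hq, S.flag_true A i hr hj] at h1
    exact h1
  · rw [S.cell_bit A i hr hj hq] at h1
    exact absurd h1.symm hne

open Classical in
/-- the touched cells -/
noncomputable def touched (A : Oracle) (i : ℕ) : Finset (Fin (S.k i) → Bool) :=
  Finset.univ.filter fun r => ∃ j < 3 * S.n i,
    adr (S.n i) (S.k i) true (List.ofFn r) j ∈ S.Q i (S.flag i (S.BB i A))

theorem card_touched (A : Oracle) (i : ℕ) : (S.touched A i).card ≤ S.w i := by
  classical
  refine le_trans ?_ (S.hcard i (S.flag i (S.BB i A)))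
  have h : ∀ r ∈ S.touched A i, ∃ q ∈ S.Q i (S.flag i (S.BB i A)), ∃ j < 3 * S.n i,
      q = adr (S.n i) (S.k i) true (List.ofFn r) j := by
    intro r hr
    unfold touched at hr
    rw [Finset.mem_filter] at hr
    obtain ⟨-, j, hj, h⟩ := hr
    exact ⟨_, h, j, hj, rfl⟩
  choose! q hq j hj hqj using h
  refine Finset.card_le_card_of_injOn q (fun r hr => hq r hr) ?_
  intro r hr r' hr' h
  rw [hqj r hr, hqj r' hr'] at h
  exact List.ofFn_injective
    (adr_inj (List.length_ofFn) (List.length_ofFn) (hj r hr) (hj r' hr') h).2.2.2.1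

theorem cell_of_not_touched (A : Oracle) (i : ℕ) {r : Fin (S.k i) → Bool}
    (hr : r ∉ S.touched A i) : Cell (S.Phi A) (S.n i) (S.k i) (List.ofFn r) (S.bit A i) := by
  classical
  intro j hj
  apply S.cell_bit A i (List.length_ofFn) hj
  intro h
  apply hr
  unfold touched
  rw [Finset.mem_filter]
  exact ⟨Finset.mem_univ _, j, hj, h⟩

theorem exists_not_touched (A : Oracle) (i : ℕ) : ∃ r, r ∉ S.touched A i := by
  classical
  by_contra h
  push Not at h
  have h1 : S.touched A i = Finset.univ := Finset.eq_univ_of_forall h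
  have h2 := S.card_touched A i
  rw [h1, Finset.card_univ] at h2
  have h3 := S.hw i
  simp at h2
  omega

/-- the changed strings -/
def T : Set (List Bool) := {y | ∃ i b, ∃ (r : List Bool) (j : ℕ), r.length = S.k i ∧
  j < 3 * S.n i ∧ y = adr (S.n i) (S.k i) b r j}

theorem Phi_not (A : Oracle) (y : List Bool) (h : y ∉ S.T) : S.Phi A y = A y := by
  have key : ∀ i, S.BB i A y = A y := by
    intro i
    induction i with
    | zero => rfl
    | succ i ih =>
      change S.plant i (S.BB i A) y = _
      rw [S.plant_of_ne i _ fun b r j hr hj he => h ⟨i, b, r, j, hr, hj, he⟩, ih]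
  exact key _

/-- other blocks are untouched -/
theorem Phi_adr (A : Oracle) {n k : ℕ} (hnk : ∀ i, ¬ (n = S.n i ∧ k = S.k i)) (b : Bool)
    {r : List Bool} (hr : r.length = k) {j : ℕ} (hj : j < 3 * n) :
    S.Phi A (adr n k b r j) = A (adr n k b r j) := by
  apply S.Phi_not
  rintro ⟨i, b', r', j', hr', hj', h⟩
  have := adr_inj hr hr' hj hj' h
  exact hnk i ⟨this.1, this.2.1⟩

end Stg

end Pool.Agent.W2helper58.GF
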