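import Pool.Agent.H620R2.GaugeX.Defs
import Mathlib.Analysis.SpecialFunctions.Log.Base

/-!
# Circuits with oracle gates, generators with logarithmic seeds and BPP relative to an oracle

(Continues `Pool.Agent.H620R2.Gauge.Defs` and `Pool.Agent.H620R2.GaugeX.Defs`.)
-/

namespace Pool.Agent.W2helper58.GF

open Pool.Agent.NPC Pool.Agent.H620R2.Gauge

/-- The source of a wire: the constant `0`, an input bit, or a gate. -/
inductive Src : Type
  | const : Src
  | input : ℕ → Src
  | gate : ℕ → Src

/-- A wire: a source, possibly negated. -/
structure Wire : Type where
  /-- where the bit comes from -/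
  src : Src
  /-- is there a NOT gate on the wire? -/
  neg : Bool

/-- A gate: AND or OR of two wires, or an oracle gate which asks whether the string of the bits of
a list of wires is in the oracle. -/
inductive Gate : Type
  | and : Wire → Wire → Gate
  | or : Wire → Wire → Gate
  | ask : List Wire → Gate

/-- A circuit: gates, each of which uses the inputs and the gates before it, and an output. (Wires
from other inputs or gates than those which exist carry the constant `0`.) -/
structure Circuit : Type where
  /-- the gates, in the order in which they are evaluated -/
  gates : List Gate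
  /-- the output -/
  out : Wire

/-- the bit of a source, if the input is `x` and the gates so far have the values `g` -/
def Src.val (x g : List Bool) : Src → Bool
  | const => false
  | input i => x.getD i false
  | gate j => g.getD j false

/-- the bit of a wire -/
def Wire.val (x g : List Bool) (u : Wire) : Bool := xor u.neg (u.src.val x g)

/-- the value of a gate, with the oracle `A` -/
def Gate.val (A : Oracle) (x g : List Bool) : Gate → Bool
  | and u v => u.val x g && v.val x g
  | or u v => u.val x g || v.val x g
  | ask l => A (l.map (Wire.val x g))

/-- AND and OR gates count `1`, an oracle gate counts `1` plus the number of its wires; NOT gates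
are not counted. -/
def Gate.size : Gate → ℕ
  | and _ _ => 1
  | or _ _ => 1
  | ask l => l.length + 1

/-- the values of all gates -/
def Circuit.values (C : Circuit) (A : Oracle) (x : List Bool) : List Bool :=
  C.gates.foldl (fun g a => g ++ [a.val A x g]) []

/-- The output of the circuit `C` with oracle `A` on input `x`. -/
def Circuit.eval (C : Circuit) (A : Oracle) (x : List Bool) : Bool := C.out.val x (C.values A x)

/-- The size of a circuit. -/
def Circuit.size (C : Circuit) : ℕ := (C.gates.map Gate.size).sum

/-- The probability that a uniformly random string of length `k` has the property `P`. -/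
noncomputable def pr (k : ℕ) (P : List Bool → Prop) : ℝ :=
  (Nat.card {w : Fin k → Bool // P (List.ofFn w)} : ℝ) / 2 ^ k

/-- the string `1 ⋯ 1` of length `m` -/
abbrev un (m : ℕ) : List Bool := List.replicate m true

/-- There is a generator with logarithmic seeds against circuits, relative to the oracle `A`: the
seed length `d(m)` is the length of `D(1^m)`, the generator maps a seed `s` of this length to the
string `G ⟨1^m, s⟩` of length `m`, both functions are computable in polynomial time relative to
`A`, and for some constant `c` and all large `m`, `d(m) ≤ c log₂ m`, `d(m) < m`, and every circuit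
of size at most `m` with oracle gates for `A` has distinguishing advantage at most `1/8`. -/
def LogGenerator (A : Oracle) : Prop :=
  ∃ D G : List Bool → List Bool, IsFP A D ∧ IsFP A G ∧
    (∀ (m : ℕ) (s : List Bool), s.length = (D (un m)).length →
      (G (pairBits (un m) s)).length = m) ∧
    ∃ c : ℝ, ∀ᶠ m : ℕ in Filter.atTop, ((D (un m)).length : ℝ) ≤ c * Real.logb 2 m ∧
      (D (un m)).length < m ∧ ∀ C : Circuit, C.size ≤ m →
        |pr (D (un m)).length (fun s => C.eval A (G (pairBits (un m) s)) = true) -
          pr m (fun x => C.eval A x = true)| ≤ 1 / 8

/-- The language `L` is in `BPP` relative to `A`: for a random string `w` of length `p(|x|)` the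
algorithm `V` accepts `⟨w, x⟩` with probability at least `2/3` if `x` is in `L`, and at most `1/3`
if it is not. -/
def InBPP (A : Oracle) (L : Set (List Bool)) : Prop :=
  ∃ (V : List Bool → List Bool) (p : Polynomial ℕ), IsFP A V ∧ ∀ x,
    (x ∈ L → 2 / 3 ≤ accPr V (p.eval x.length) x) ∧
    (x ∉ L → accPr V (p.eval x.length) x ≤ 1 / 3)

/-- The condition on the gauge: for some `C` and all large `N` there is `N' ≥ N` with
`f N' ≤ (log₂ N)^C`. (If `f` is nondecreasing, this says that `f N ≤ (log₂ N)^C` for all large
`N`.) -/
def Cond (f : ℕ → ℝ) : Prop :=
  ∃ C : ℕ, ∀ᶠ N : ℕ in Filter.atTop, ∃ N' ≥ N, f N' ≤ (Real.logb 2 N) ^ C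

end Pool.Agent.W2helper58.GF
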