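import Pool.Agent.W2helper58.GF.Neg
import Pool.Agent.H620R2.GaugeX.NonNullX

/-!
# The lower bound: the choice of the blocks and the mass argument
-/

namespace Pool.Agent.W2helper58.GF

open Pool.Agent.NPC Pool.Agent.H620R2.Gauge Pool.Agent.H622R2

/-- the number `m₀` of a requirement -/
def m0 : Rq → ℕ
  | Sum.inl _ => 0
  | Sum.inr (_, _, _, a) => a

/-- a bound for the number of strings of a block -/
def cost (n k : ℕ) : ℕ := 2 ^ (k + 1) * (3 * n)

theorem exists_rq : ∃ g : ℕ → Rq, Function.Surjective g := by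
  obtain ⟨a, _⟩ := exists_alg
  have h1 : Nonempty Rq := ⟨Sum.inl (a 0)⟩
  exact exists_surjective_nat _

theorem exists_stg (hloc : P_local) (hst : P_stage) {f : ℕ → ℝ} (hf : ¬ Cond f) (n₀ : ℕ) :
    ∃ S : Stg, Function.Surjective S.g ∧ (∀ i, n₀ ≤ S.n i) ∧ (∀ i, m0 (S.g i) ≤ S.n i) ∧
      ∀ i N, 2 ^ S.l i ≤ N →
        ((∑ j ∈ Finset.range (i + 1), cost (S.n j) (S.k j) : ℕ) : ℝ) ≤ f N := by
  classical
  obtain ⟨g, hg⟩ := exists_rq
  choose P hP using fun i => hloc (g i)
  choose n k h1 h2 h3 h4 h5 using fun (i : ℕ) (prev : ℕ) => hst f hf (P i) prev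
  let nx : ℕ → ℕ → ℕ := fun i p => p + cost (n i p) (k i p) + outLen (n i p) (k i p) +
    (P i).eval (n i p) + m0 (g (i + 1))
  let pv : ℕ → ℕ := fun i => Nat.rec (n₀ + m0 (g 0)) nx i
  have hpv0 : pv 0 = n₀ + m0 (g 0) := rfl
  have hpvs : ∀ i, pv (i + 1) = nx i (pv i) := fun i => rfl
  have hmono : ∀ i j, i ≤ j → pv i ≤ pv j := by
    intro i j hij
    induction j, hij using Nat.le_induction with
    | base => exact le_rfl
    | succ j _ ih =>
      rw [hpvs]
      simp only [nx]
      omega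
  have hm : ∀ i, m0 (g i) ≤ pv i := by
    intro i
    cases i with
    | zero => rw [hpv0]; omega
    | succ i => rw [hpvs]; simp only [nx]; omega
  have hsum : ∀ i, ∑ j ∈ Finset.range i, cost (n j (pv j)) (k j (pv j)) ≤ pv i := by
    intro i
    induction i with
    | zero => simp
    | succ i ih =>
      rw [Finset.sum_range_succ, hpvs]
      simp only [nx]
      omega
  choose Q hQ1 hQ2 hQ3 using fun (i : ℕ) (B : Oracle) =>
    hP i (n i (pv i)) (k i (pv i)) (h3 i (pv i)) B
  refine ⟨⟨g, fun i => n i (pv i), fun i => k i (pv i), Q, fun i => (P i).eval (n i (pv i)),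
    hQ1, hQ2, hQ3, fun i => h2 i (pv i), fun i => h3 i (pv i), fun i => h4 i (pv i), ?_⟩,
    hg, ?_, ?_, ?_⟩
  · intro i j hij
    have e1 := hmono (i + 1) j hij
    have e2 := h1 j (pv j)
    rw [hpvs] at e1
    simp only [nx] at e1
    omega
  · intro i
    have e1 := hmono 0 i (Nat.zero_le i)
    have e2 := h1 i (pv i)
    change n₀ ≤ n i (pv i)
    omega
  · intro i
    have e1 := hm i
    have e2 := h1 i (pv i)
    change m0 (g i) ≤ n i (pv i)
    omega
  · intro i N hN
    refine le_trans ?_ (h5 i (pv i) N hN)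
    have e := hsum i
    change ((∑ j ∈ Finset.range (i + 1), cost (n j (pv j)) (k j (pv j)) : ℕ) : ℝ) ≤ _
    rw [Finset.sum_range_succ]
    unfold cost at e ⊢
    exact_mod_cast Nat.add_le_add_right e _

open Classical in
theorem card_block (n k N : ℕ) : ((Finset.range N).filter (fun i => ∃ (b : Bool) (r : List Bool)
    (j : ℕ), r.length = k ∧ j < 3 * n ∧ str i = adr n k b r j)).card ≤ cost n k := by
  have h : ∀ i ∈ (Finset.range N).filter (fun i => ∃ (b : Bool) (r : List Bool)
      (j : ℕ), r.length = k ∧ j < 3 * n ∧ str i = adr n k b r j),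
      ∃ p : Bool × (Fin k → Bool) × Fin (3 * n), str i = adr n k p.1 (List.ofFn p.2.1) p.2.2 := by
    intro i hi
    rw [Finset.mem_filter] at hi
    obtain ⟨-, b, r, j, hr, hj, h⟩ := hi
    subst hr
    refine ⟨(b, r.get, ⟨j, hj⟩), ?_⟩
    rw [h]
    simp
  rcases Nat.eq_zero_or_pos n with h0 | h0
  · rw [Finset.filter_eq_empty_iff.2]
    · simp
    · rintro i - ⟨b, r, j, -, hj, -⟩
      omega
  have hne : Nonempty (Fin (3 * n)) := ⟨⟨0, by omega⟩⟩
  choose! p hp using h
  have h1 := Finset.card_le_card_of_injOn (s := (Finset.range N).filter (fun i => ∃ (b : Bool)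
      (r : List Bool) (j : ℕ), r.length = k ∧ j < 3 * n ∧ str i = adr n k b r j))
      (t := (Finset.univ : Finset (Bool × (Fin k → Bool) × Fin (3 * n)))) p
      (fun i _ => Finset.mem_coe.2 (Finset.mem_univ _)) (by
        intro i hi i' hi' he
        apply str_injective
        rw [hp i hi, hp i' hi', he])
  refine h1.trans (le_of_eq ?_)
  rw [Finset.card_univ]
  simp only [Fintype.card_prod, Fintype.card_bool, Fintype.card_fin, Fintype.card_pi,
    Finset.prod_const, Finset.card_univ]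
  unfold cost
  rw [pow_succ]
  ring

open Classical in
theorem card_T (S : Stg) {f : ℕ → ℝ} (hS : ∀ i N, 2 ^ S.l i ≤ N →
    ((∑ j ∈ Finset.range (i + 1), cost (S.n j) (S.k j) : ℕ) : ℝ) ≤ f N) :
    ∃ c : ℝ, ∀ N : ℕ, (((Finset.range N).filter (fun i => str i ∈ S.T)).card : ℝ) ≤ f N + c := by
  -- the constant for the short sequences
  obtain ⟨c, hc0, hc⟩ : ∃ c : ℝ, 0 ≤ c ∧ ∀ N < 2 ^ S.l 0, 0 ≤ f N + c := by
    have h1 : ∀ m : ℕ, ∃ c : ℝ, 0 ≤ c ∧ ∀ N < m, 0 ≤ f N + c := by
      intro m
      induction m with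
      | zero => exact ⟨0, le_rfl, fun N hN => by omega⟩
      | succ m ih =>
        obtain ⟨c, h1, h2⟩ := ih
        refine ⟨max c (- f m), le_max_of_le_left h1, ?_⟩
        intro N hN
        rcases Nat.lt_succ_iff_lt_or_eq.1 hN with h | h
        · have := h2 N h
          have := le_max_left c (- f m)
          linarith
        · subst h
          have := le_max_right c (- f N)
          linarith
    exact h1 _
  refine ⟨c, fun N => ?_⟩
  by_cases hN : N < 2 ^ S.l 0
  · have h0 : (Finset.range N).filter (fun i => str i ∈ S.T) = ∅ := by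
      rw [Finset.filter_eq_empty_iff]
      intro j hj
      rw [Finset.mem_range] at hj
      rintro ⟨i, b, r, j', hr, hj', he⟩
      have h1 : (str j).length = S.l i := by rw [he]; exact length_adr _ _ _ _ _ hr hj'
      have h2 := le_idx (str j)
      rw [idx_str, h1] at h2
      have h3 : 2 ^ S.l 0 ≤ 2 ^ S.l i := Nat.pow_le_pow_right (by norm_num) (S.l_le (Nat.zero_le i))
      omega
    rw [h0]
    simpa using hc N hN
  · -- the last stage that matters
    push Not at hN
    obtain ⟨i, hi1, hi2⟩ : ∃ i, 2 ^ S.l i ≤ N ∧ ∀ j, 2 ^ S.l j ≤ N → j ≤ i := by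
      have hb : ∀ j, 2 ^ S.l j ≤ N → j ≤ N := by
        intro j hj
        have h1 := S.lt_l j
        have h2 : S.l j < 2 ^ S.l j := Nat.lt_two_pow_self
        omega
      refine ⟨Nat.findGreatest (fun j => 2 ^ S.l j ≤ N) N, ?_, ?_⟩
      · exact Nat.findGreatest_spec (P := fun j => 2 ^ S.l j ≤ N) (Nat.zero_le N) hN
      · intro j hj
        exact Nat.le_findGreatest (hb j hj) hj
    have h1 : (Finset.range N).filter (fun i => str i ∈ S.T) ⊆
        (Finset.range (i + 1)).biUnion fun j => (Finset.range N).filter (fun a => ∃ (b : Bool)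
          (r : List Bool) (j' : ℕ), r.length = S.k j ∧ j' < 3 * S.n j ∧
            str a = adr (S.n j) (S.k j) b r j') := by
      intro a ha
      rw [Finset.mem_filter, Finset.mem_range] at ha
      obtain ⟨ha, ⟨j, b, r, j', hr, hj', he⟩⟩ := ha
      have h1 : (str a).length = S.l j := by rw [he]; exact length_adr _ _ _ _ _ hr hj'
      have h2 := le_idx (str a)
      rw [idx_str, h1] at h2
      rw [Finset.mem_biUnion]
      refine ⟨j, Finset.mem_range.2 (Nat.lt_succ_of_le (hi2 j (by omega))), ?_⟩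
      rw [Finset.mem_filter, Finset.mem_range]
      exact ⟨ha, b, r, j', hr, hj', he⟩
    have h2 : ((Finset.range N).filter (fun i => str i ∈ S.T)).card ≤
        ∑ j ∈ Finset.range (i + 1), cost (S.n j) (S.k j) :=
      (Finset.card_le_card h1).trans (Finset.card_biUnion_le.trans
        (Finset.sum_le_sum fun j _ => card_block _ _ _))
    have h3 := hS i N hi1
    have h4 : (((Finset.range N).filter (fun i => str i ∈ S.T)).card : ℝ) ≤
        ((∑ j ∈ Finset.range (i + 1), cost (S.n j) (S.k j) : ℕ) : ℝ) := by exact_mod_cast h2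
    linarith

/-- The lower bound. -/
theorem lower (hloc : P_local) (hst : P_stage) (hlook : P_look) (hzpp : P_zpp) (hgood : P_good)
    {f : ℕ → ℝ} (hf : ¬ Cond f) (O : Set Oracle)
    (hO : ∀ A, ¬ LogGenerator A → (∃ L, IsZPP A L ∧ ¬ IsP A L) → A ∈ O) : ¬ Null f O := by
  obtain ⟨n₀, hn₀, hpos⟩ := hgood
  obtain ⟨S, hg, h1, h2, h3⟩ := exists_stg hloc hst hf n₀
  obtain ⟨c, hc⟩ := card_T S h3
  refine not_null_of f (Good n₀) hpos S.Phi S.T (fun B y hy => S.Phi_not B y hy) c ?_ O ?_
  · intro N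
    refine le_trans (le_of_eq ?_) (hc N)
    congr 2
  · intro A hA
    refine hO _ (S.not_gen hlook (m₀ := m0) (fun _ _ _ _ => rfl) h2 hg A)
      ⟨zlang n₀ (S.Phi A), hzpp n₀ hn₀ _ ?_, S.not_isP h1 hA hg⟩
    exact S.promise h1 hA

end Pool.Agent.W2helper58.GF
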