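import Pool.Agent.W2helper58.GF.Cons

/-!
# What holds relative to the constructed oracle
-/

namespace Pool.Agent.W2helper58.GF

open Pool.Agent.NPC Pool.Agent.H620R2.Gauge Pool.Agent.H622R2

/-- the good oracles -/
def Good (n₀ : ℕ) : Set Oracle := {A : Oracle | ∀ n k, n₀ ≤ n → k ≤ n →
  ¬ Flagged A n k ∧ ∀ (r : List Bool) (c : Bool), r.length = k → ¬ Cell A n k r c}

/-- the promise of the language -/
def Promise (n₀ : ℕ) (A : Oracle) : Prop := ∀ n k, n₀ ≤ n → k ≤ n → Flagged A n k →
  (¬ ∃ r r' : List Bool, r.length = k ∧ r'.length = k ∧ Cell A n k r true ∧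
    Cell A n k r' false) ∧
  2 ^ k ≤ 2 * Nat.card {r : Fin k → Bool // Cell A n k (List.ofFn r) true ∨
    Cell A n k (List.ofFn r) false}

namespace Stg

variable (S : Stg)

theorem promise {n₀ : ℕ} (h₀ : ∀ i, n₀ ≤ S.n i) {A : Oracle} (hA : A ∈ Good n₀) :
    Promise n₀ (S.Phi A) := by
  classical
  intro n k hn hk hf
  have h1 : ∃ i, n = S.n i ∧ k = S.k i := by
    by_contra h
    push Not at h
    have h2 : ∀ i, ¬ (n = S.n i ∧ k = S.k i) := fun i hi => h i hi.1 hi.2
    apply (hA n k hn hk).1
    intro j hj
    have h3 := hf j hj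
    rwa [S.Phi_adr A h2 false (List.length_replicate) hj] at h3
  obtain ⟨i, rfl, rfl⟩ := h1
  have hcell := (hA _ _ hn hk).2
  constructor
  · rintro ⟨r, r', hr, hr', h1, h2⟩
    have e1 := S.cell_ne A i hr (fun c => hcell r c hr) h1
    have e2 := S.cell_ne A i hr' (fun c => hcell r' c hr') h2
    rw [← e1] at e2
    exact absurd e2 (by simp)
  · have h1 : (S.touched A i)ᶜ.card ≤ Nat.card {r : Fin (S.k i) → Bool //
        Cell (S.Phi A) (S.n i) (S.k i) (List.ofFn r) true ∨
          Cell (S.Phi A) (S.n i) (S.k i) (List.ofFn r) false} := by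
      rw [Nat.card_eq_fintype_card, Fintype.card_subtype]
      apply Finset.card_le_card
      intro r hr
      rw [Finset.mem_compl] at hr
      rw [Finset.mem_filter]
      refine ⟨Finset.mem_univ _, ?_⟩
      have h2 := S.cell_of_not_touched A i hr
      cases hb : S.bit A i with
      | true => rw [hb] at h2; exact Or.inl h2
      | false => rw [hb] at h2; exact Or.inr h2
    have h2 := S.card_touched A i
    have h3 := S.hw i
    have h4 : (S.touched A i)ᶜ.card = 2 ^ S.k i - (S.touched A i).card := by
      rw [Finset.card_compl]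
      simp
    omega

theorem not_isP {n₀ : ℕ} (h₀ : ∀ i, n₀ ≤ S.n i) {A : Oracle} (hA : A ∈ Good n₀)
    (hg : Function.Surjective S.g) : ¬ IsP (S.Phi A) (zlang n₀ (S.Phi A)) := by
  rintro ⟨V, ⟨M, hM⟩, hV⟩
  obtain ⟨i, hi⟩ := hg (Sum.inl M)
  have hcell := (hA _ _ (h₀ i) (S.hkn i)).2
  have hval : rval (S.n i) (S.k i) (S.Phi A) (S.g i) =
      (0, if M.out (S.Phi A) (inp (S.n i) (S.k i)) = some [true] then 1 else 0) := by
    rw [hi]
    rfl
  have hb := S.bit_eq A i
  rw [hval] at hb
  by_cases hacc : V (inp (S.n i) (S.k i)) = [true]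
  · rw [hM, if_pos (by rw [hacc])] at hb
    have hb' : S.bit A i = false := by
      cases h : S.bit A i with
      | true => exact absurd (hb.1 h) (by norm_num)
      | false => rfl
    obtain ⟨n, k, hn, hk, he, hf, r, hr, hc⟩ := (hV _).2 hacc
    obtain ⟨rfl, rfl⟩ := inp_inj he
    have h1 := S.cell_ne A i hr (fun c => hcell r c hr) hc
    rw [hb'] at h1
    exact absurd h1 (by simp)
  · rw [hM, if_neg (by simpa using hacc)] at hb
    have hb' : S.bit A i = true := hb.2 (by norm_num)
    apply hacc
    rw [← hV]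
    obtain ⟨r, hr⟩ := S.exists_not_touched A i
    refine ⟨S.n i, S.k i, h₀ i, S.hkn i, rfl, S.flagged A i, List.ofFn r, List.length_ofFn, ?_⟩
    have h2 := S.cell_of_not_touched A i hr
    rwa [hb'] at h2

/-- the cells read by `look` -/
theorem card_look (A : Oracle) (i : ℕ) (c : Bool) (hc : S.bit A i ≠ c) :
    16 * Nat.card {r : Fin (S.k i) → Bool //
      S.Phi A (adr (S.n i) (S.k i) true (List.ofFn r) 0) = c} ≤ 2 ^ S.k i := by
  classical
  have h1 : Nat.card {r : Fin (S.k i) → Bool //
      S.Phi A (adr (S.n i) (S.k i) true (List.ofFn r) 0) = c} ≤ (S.touched A i).card := by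
    rw [Nat.card_eq_fintype_card, Fintype.card_subtype]
    apply Finset.card_le_card
    intro r hr
    rw [Finset.mem_filter] at hr
    by_contra h
    have h2 := S.cell_of_not_touched A i h 0 (by
      have := S.hk1 i; have := S.hkn i; omega)
    rw [h2] at hr
    exact hc hr.2
  have h2 := S.card_touched A i
  have h3 := S.hw i
  omega

end Stg

/-- the fraction of the strings whose first `k` bits have a property -/
theorem pr_take (m k : ℕ) (hk : k ≤ m) (P : List Bool → Prop) :
    pr m (fun x => P ((List.range k).map fun i => x.getD i false)) =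
      pr k P := by
  classical
  obtain ⟨l, rfl⟩ := Nat.exists_eq_add_of_le hk
  unfold pr
  have h1 : Nat.card {w : Fin (k + l) → Bool // P ((List.range k).map fun i =>
      (List.ofFn w).getD i false)} = Nat.card {w : Fin k → Bool // P (List.ofFn w)} * 2 ^ l := by
    have e : {w : Fin (k + l) → Bool // P ((List.range k).map fun i =>
      (List.ofFn w).getD i false)} ≃ {w : Fin k → Bool // P (List.ofFn w)} × (Fin l → Bool) := by
      refine ((Fin.appendEquiv k l).symm.subtypeEquiv (q := fun p => P (List.ofFn p.1)) ?_).trans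
        ?_
      · intro w
        have h2 : ((List.range k).map fun i => (List.ofFn w).getD i false) =
            List.ofFn ((Fin.appendEquiv k l).symm w).1 := by
          apply List.ext_getElem
          · simp
          · intro i h1 h2
            simp only [List.length_map, List.length_range] at h1
            rw [List.getElem_map, List.getElem_range, List.getElem_ofFn,
              List.getD_eq_getElem _ _ (by rw [List.length_ofFn]; omega), List.getElem_ofFn]
            rfl
        rw [h2]
      · exact {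
          toFun := fun p => (⟨p.1.1, p.2⟩, p.1.2)
          invFun := fun p => ⟨(p.1.1, p.2), p.1.2⟩
          left_inv := fun p => rfl
          right_inv := fun p => rfl }
    rw [Nat.card_congr e, Nat.card_prod]
    simp
  rw [h1]
  push_cast
  rw [pow_add]
  have h2 : (2 : ℝ) ^ l ≠ 0 := by positivity
  field_simp

namespace Stg

variable (S : Stg)

theorem not_gen (hlook : P_look) {m₀ : Rq → ℕ} (hm₀ : ∀ D G c a, m₀ (Sum.inr (D, G, c, a)) = a)
    (h₀ : ∀ i, m₀ (S.g i) ≤ S.n i) (hg : Function.Surjective S.g) (A : Oracle) :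
    ¬ LogGenerator (S.Phi A) := by
  classical
  rintro ⟨D, G, ⟨MD, hD⟩, ⟨MG, hG⟩, hlen, c, hc⟩
  obtain ⟨c', hc'⟩ := exists_nat_ge c
  obtain ⟨a, ha⟩ := Filter.eventually_atTop.1 hc
  obtain ⟨i, hi⟩ := hg (Sum.inr (MD, MG, c', a))
  have h1 := h₀ i
  rw [hi, hm₀] at h1
  set n := S.n i with hn
  set k := S.k i with hk
  set B := S.Phi A with hB
  set m := outLen n k with hm
  have hmn : n < m := by rw [hm]; unfold outLen; omega
  obtain ⟨h2, h3, h4⟩ := ha m (by omega)
  have hseed : seedLen MD m B = (D (un m)).length := by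
    unfold seedLen
    rw [hD]
    rfl
  have hk1 := S.hk1 i
  have hkn := S.hkn i
  rw [← hk] at hk1
  rw [← hk, ← hn] at hkn
  have hm1 : (1 : ℝ) < m := by
    have : 1 < m := by omega
    exact_mod_cast this
  -- the seed length is small
  have h5 : 2 ^ seedLen MD m B ≤ m ^ c' := by
    rw [hseed]
    have h6 : (((D (un m)).length : ℕ) : ℝ) ≤ c' * Real.logb 2 m :=
      h2.trans (mul_le_mul_of_nonneg_right hc' (Real.logb_nonneg (by norm_num) hm1.le))
    have h7 : (2 : ℝ) ^ (((D (un m)).length : ℕ) : ℝ) ≤ (2 : ℝ) ^ (c' * Real.logb 2 m) :=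
      Real.rpow_le_rpow_of_exponent_le (by norm_num) h6
    rw [mul_comm, Real.rpow_mul (by norm_num), Real.rpow_logb (by norm_num) (by norm_num)
      (by linarith), Real.rpow_natCast, Real.rpow_natCast] at h7
    exact_mod_cast h7
  have hval : rval n k B (S.g i) = (seedLen MD m B,
      Nat.card {s : Fin (seedLen MD m B) → Bool // look n k B
          ((MG.out B (pairBits (un m) (List.ofFn s))).getD []) = true}) := by
    rw [hi]
    change (seedLen MD m B, _) = _
    rw [if_pos h5]
  obtain ⟨C, hC1, hC2⟩ := hlook n k (by omega)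
  have h6 := h4 C hC1
  have e1 : pr (D (un m)).length (fun s => C.eval B (G (pairBits (un m) s)) = true) =
      ((rval n k B (S.g i)).2 : ℝ) / 2 ^ (rval n k B (S.g i)).1 := by
    rw [hval]
    unfold pr
    simp only [hC2, hG, Option.getD_some]
    rw [hseed]
  have e2 : pr m (fun x => C.eval B x = true) =
      pr k (fun r => B (adr n k true r 0) = true) := by
    rw [← pr_take m k (by omega)]
    congr 1
    funext x
    rw [hC2]
    rfl
  rw [e1, e2] at h6
  have hb := S.bit_eq A i
  rw [← hn, ← hk, ← hB] at hb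
  have hpos : (0 : ℝ) < 2 ^ (rval n k B (S.g i)).1 := by positivity
  cases hbit : S.bit A i with
  | true =>
    have h7 := hb.1 hbit
    have h8 := S.card_look A i false (by rw [hbit]; simp)
    rw [← hn, ← hk, ← hB] at h8
    have h9 : ((rval n k B (S.g i)).2 : ℝ) / 2 ^ (rval n k B (S.g i)).1 ≤ 1 / 2 := by
      rw [div_le_iff₀ hpos]
      have : (2 * (rval n k B (S.g i)).2 : ℝ) ≤ 2 ^ (rval n k B (S.g i)).1 := by
        exact_mod_cast h7
      linarith
    have h10 : (15 : ℝ) / 16 ≤ pr k (fun r => B (adr n k true r 0) = true) := by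
      unfold pr
      rw [le_div_iff₀ (by positivity)]
      have hsum : Nat.card {r : Fin k → Bool // B (adr n k true (List.ofFn r) 0) = true} +
          Nat.card {r : Fin k → Bool // B (adr n k true (List.ofFn r) 0) = false} = 2 ^ k := by
        have h11 := Fintype.card_subtype_compl
          (fun r : Fin k → Bool => B (adr n k true (List.ofFn r) 0) = true)
        have h12 := Fintype.card_subtype_le
          (fun r : Fin k → Bool => B (adr n k true (List.ofFn r) 0) = true)
        have h13 : Fintype.card (Fin k → Bool) = 2 ^ k := by simp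
        have h14 : Fintype.card {r : Fin k → Bool // B (adr n k true (List.ofFn r) 0) = false} =
            Fintype.card {r : Fin k → Bool // ¬ B (adr n k true (List.ofFn r) 0) = true} :=
          Fintype.card_congr (Equiv.subtypeEquivRight fun r => by simp)
        rw [Nat.card_eq_fintype_card, Nat.card_eq_fintype_card, h14]
        omega
      have h15 : ((Nat.card {r : Fin k → Bool // B (adr n k true (List.ofFn r) 0) = true} : ℕ) :
          ℝ) + ((Nat.card {r : Fin k → Bool // B (adr n k true (List.ofFn r) 0) = false} : ℕ) :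
          ℝ) = 2 ^ k := by exact_mod_cast hsum
      have h16 : (16 : ℝ) * ((Nat.card {r : Fin k → Bool //
          B (adr n k true (List.ofFn r) 0) = false} : ℕ) : ℝ) ≤ 2 ^ k := by exact_mod_cast h8
      linarith
    have h17 := abs_le.1 h6
    linarith [h17.1]
  | false =>
    have h7 : ¬ (2 * (rval n k B (S.g i)).2 ≤ 2 ^ (rval n k B (S.g i)).1) := by
      intro h
      rw [hb.2 h] at hbit
      exact absurd hbit (by simp)
    have h8 := S.card_look A i true (by rw [hbit]; simp)
    rw [← hn, ← hk, ← hB] at h8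
    have h9 : 1 / 2 ≤ ((rval n k B (S.g i)).2 : ℝ) / 2 ^ (rval n k B (S.g i)).1 := by
      rw [le_div_iff₀ hpos]
      have : ((2 : ℝ) ^ (rval n k B (S.g i)).1) ≤ 2 * (rval n k B (S.g i)).2 := by
        exact_mod_cast (not_le.1 h7).le
      linarith
    have h10 : pr k (fun r => B (adr n k true r 0) = true) ≤ 1 / 16 := by
      unfold pr
      rw [div_le_iff₀ (by positivity)]
      have h16 : (16 : ℝ) * ((Nat.card {r : Fin k → Bool //
          B (adr n k true (List.ofFn r) 0) = true} : ℕ) : ℝ) ≤ 2 ^ k := by exact_mod_cast h8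
      linarith
    have h17 := abs_le.1 h6
    linarith [h17.2]

end Stg

end Pool.Agent.W2helper58.GF
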