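import Pool.Agent.W2helper58.GF.Defs
import Pool.Agent.H620R2.Gauge.M
import Pool.Agent.H620R2.Gauge.A1

/-!
# The pieces of the proof: exact statements

Every definition `P_...` below is one piece; prove `theorem p_... : P_...` in a file of your own.
Useful: `Pool.Agent.H620R2.Gauge.A1` (`Alg.out_local`, `length_pairBits`), `A2` (`IsFP.tt`),
`GaugeR.Seq` (`IsFP.seq`, `IsFP.comp`, `IsFP.of_poly`), `GaugeR.R2` (`IsFP.votes`), `GaugeR.R8`
(`ranO_cyl_le`), `Gauge2.Null` (`cover_of_event`, `Null.mono`), `Gauge.S` (`str`, `idx`, `bitsOf`),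
`Gauge.Base` (`orc`, `pre`), `H622R2.CoNP` (`poly_pairBits`, `poly_unpair`, `poly_of_polyTime`).
-/

namespace Pool.Agent.W2helper58.GF

open Pool.Agent.NPC Pool.Agent.H620R2.Gauge

/-! ### A. Chernoff bound by counting -/

/-- Among all families `ω` of strings, few have a frequency of the event `h` which is off by more
than `1/8`. Proof: for `0 ≤ λ ≤ 1` and `|y| ≤ 1`, `exp (λ y) ≤ 1 + λ y + λ²`, so
`∑_ω exp (λ ∑_s ([h (ω s)] - μ)) = (∑_v exp (λ ([h v] - μ)))^|ι| ≤ (2^t exp (λ²))^|ι|`; take
`λ = 1/16` and both signs. -/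
def P_chern : Prop := ∀ (ι : Type) [Fintype ι] (t : ℕ) (h : (Fin t → Bool) → Prop),
  (Nat.card {ω : ι → Fin t → Bool // (1 / 8 : ℝ) * Fintype.card ι <
    |(Nat.card {s // h (ω s)} : ℝ) -
      Fintype.card ι * ((Nat.card {v : Fin t → Bool // h v} : ℝ) / 2 ^ t)|} : ℝ) ≤
    2 * Real.exp (-(Fintype.card ι : ℝ) / 256) * 2 ^ (t * Fintype.card ι)

/-! ### B. The cover -/

/-- The event that some test `h j` tells the samples (read off the oracle at the positions
`pos s i`) from random strings with advantage more than `1/8`. -/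
def Told {ι J : Type} [Fintype ι] (t : ℕ) (pos : ι → Fin t → List Bool)
    (h : J → Oracle → (Fin t → Bool) → Prop) (A : Oracle) : Prop :=
  ∃ j, (1 / 8 : ℝ) < |(Nat.card {s // h j A (fun i => A (pos s i))} : ℝ) / Fintype.card ι -
    (Nat.card {v : Fin t → Bool // h j A v} : ℝ) / 2 ^ t|

/-- The samples lie at different strings of length `a`, the tests depend on the oracle below
length `a` only. Then the oracles with `Told` have a cover by prefixes of length `N`, for every
`N ≥ 2^(a+1)`. Proof: `cover_of_event` with the event `Told (orc N ω)`; fix all bits outside the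
positions of the samples and use `P_chern` for every `j`. -/
def P_cover : Prop := ∀ (ι J : Type) [Fintype ι] [Fintype J] [Nonempty ι] (t a N : ℕ),
  2 ^ (a + 1) ≤ N → ∀ (pos : ι → Fin t → List Bool),
  (∀ s i s' i', pos s i = pos s' i' → s = s' ∧ i = i') → (∀ s i, (pos s i).length = a) →
  ∀ (h : J → Oracle → (Fin t → Bool) → Prop),
  (∀ j A A', (∀ y : List Bool, y.length < a → A y = A' y) → h j A = h j A') →
  ∀ (f : ℕ → ℝ) (δ : ℝ),
  (Fintype.card J : ℝ) * (2 * Real.exp (-(Fintype.card ι : ℝ) / 256)) * 2 ^ f N ≤ δ →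
  ∃ S : Set (List Bool), (∀ A : Oracle, Told t pos h A → ∃ σ ∈ S, Extends A σ) ∧
    ∑' σ : S, ENNReal.ofReal (2 ^ (f σ.1.length - σ.1.length)) ≤ ENNReal.ofReal δ

/-! ### C. Events that occur infinitely often -/

/-- If the events `E m` have covers of weight at most `2^(-m)` for all large `m`, then the oracles
for which infinitely many of them occur form a null set. -/
def P_limsup : Prop := ∀ (f : ℕ → ℝ) (E : ℕ → Set Oracle),
  (∀ᶠ m : ℕ in Filter.atTop, ∃ S : Set (List Bool), (∀ A ∈ E m, ∃ σ ∈ S, Extends A σ) ∧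
    ∑' σ : S, ENNReal.ofReal (2 ^ (f σ.1.length - σ.1.length)) ≤ ENNReal.ofReal ((1 / 2) ^ m)) →
  Null f {A | ∃ᶠ m : ℕ in Filter.atTop, A ∈ E m}

/-! ### D. Counting circuits -/

/-- The circuits of size at most `m` compute few functions of the oracle and of inputs of length
`m`. Proof: normalise the wires (inputs and gates `< m`, otherwise the constant); there are
`4 m + 2` wires, at most `(4 m + 3)^(m+3)` gates, at most `m` gates in the list. -/
def P_count : Prop := ∀ m : ℕ, ∃ s : Finset Circuit, s.card ≤ 2 ^ ((m + 3) ^ 3) ∧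
  (∀ C ∈ s, ∀ A A' : Oracle, (∀ y : List Bool, y.length < m → A y = A' y) →
    ∀ x, C.eval A x = C.eval A' x) ∧
  ∀ C : Circuit, C.size ≤ m → ∃ C' ∈ s, ∀ (A : Oracle) (x : List Bool), x.length = m →
    C'.eval A x = C.eval A x

/-! ### E. The generator -/

/-- sample strings -/
def sadr (s : List Bool) (b j : ℕ) : List Bool :=
  s ++ (List.replicate j true ++ List.replicate (b - j) false)

/-- some circuit of size at most `m` tells the output of the generator with seeds of length
`K * size m` from random strings -/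
def BadG (K m : ℕ) (A : Oracle) : Prop := ∃ C : Circuit, C.size ≤ m ∧
  (1 / 8 : ℝ) < |(Nat.card {s : Fin (K * Nat.size m) → Bool //
      C.eval A (List.ofFn fun j : Fin m => A (sadr (List.ofFn s) m j)) = true} : ℝ) /
      2 ^ (K * Nat.size m) -
    (Nat.card {v : Fin m → Bool // C.eval A (List.ofFn v) = true} : ℝ) / 2 ^ m|

/-- `D x = un (K * size |x|)`, and `G y` reads the oracle at the strings
`sadr s m j` (`j < m`) for `y = ⟨1^m, s⟩`; use `IsFP.tt`. -/
def P_gen : Prop := ∀ (K : ℕ) (A : Oracle),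
  (∀ᶠ m : ℕ in Filter.atTop, ¬ BadG K m A) → LogGenerator A

/-- the numbers for the generator -/
def P_asymG : Prop := ∀ (f : ℕ → ℝ) (C : ℕ),
  (∀ᶠ N : ℕ in Filter.atTop, ∃ N' ≥ N, f N' ≤ (Real.logb 2 N) ^ C) →
  ∃ K : ℕ, ∀ᶠ m : ℕ in Filter.atTop, ∃ N : ℕ, 2 ^ (K * Nat.size m + m + 1) ≤ N ∧
    (2 : ℝ) ^ ((m + 3) ^ 3) * (2 * Real.exp (-(2 ^ (K * Nat.size m) : ℝ) / 256)) * 2 ^ f N ≤
      (1 / 2) ^ m

/-! ### F. BPP -/

/-- the number of samples -/
noncomputable def smpT (b : Polynomial ℕ) (C : ℕ) : Polynomial ℕ :=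
  Polynomial.C 1024 * ((Polynomial.C 3 * b) ^ C + Polynomial.C 2 * Polynomial.X + Polynomial.C 2)

/-- the samples do not estimate the acceptance probability of the machine `M` with `p` random bits
on some input of length `n` -/
def BadB (M : Alg) (p b : Polynomial ℕ) (C n : ℕ) (A : Oracle) : Prop :=
  ∃ x : List Bool, x.length = n ∧
    (1 / 8 : ℝ) < |(Nat.card {i : Fin ((smpT b C).eval n) //
        M.out A (pairBits (List.ofFn fun j : Fin (p.eval n) =>
          A (sadr (bitsOf (Nat.size ((smpT b C).eval n)) i) (b.eval n) j)) x) = some [true]} : ℝ) /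
        (smpT b C).eval n -
      (Nat.card {v : Fin (p.eval n) → Bool //
        M.out A (pairBits (List.ofFn v) x) = some [true]} : ℝ) / 2 ^ p.eval n|

/-- If the samples are good for all large lengths, then the language is in `P`: take the majority
vote of the samples (`IsFP.votes`), and a finite table for the small lengths. -/
def P_votes : Prop := ∀ (A : Oracle) (M : Alg) (V : List Bool → List Bool) (p b : Polynomial ℕ)
  (C : ℕ) (L : Set (List Bool)), (∀ y, M.out A y = some (V y)) →
  (∀ᶠ n : ℕ in Filter.atTop, ¬ BadB M p b C n A) →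
  (∀ x : List Bool, (x ∈ L → 2 / 3 ≤ accPr V (p.eval x.length) x) ∧
    (x ∉ L → accPr V (p.eval x.length) x ≤ 1 / 3)) → IsP A L

/-- the numbers for BPP -/
def P_asymB : Prop := ∀ (f : ℕ → ℝ) (C : ℕ) (b : Polynomial ℕ),
  (∀ᶠ N : ℕ in Filter.atTop, ∃ N' ≥ N, f N' ≤ (Real.logb 2 N) ^ C) →
  (∀ n, n + 1 ≤ b.eval n) →
  ∀ᶠ n : ℕ in Filter.atTop, ∃ N : ℕ,
    2 ^ (Nat.size ((smpT b C).eval n) + b.eval n + 1) ≤ N ∧
    (2 : ℝ) ^ n * (2 * Real.exp (-(((smpT b C).eval n : ℕ) : ℝ) / 256)) * 2 ^ f N ≤
      (1 / 2) ^ n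

/-! ### G. The language in ZPP -/

/-- the input with the parameters `n` and `k` -/
def inp (n k : ℕ) : List Bool := pairBits (un n) (un k)

/-- the strings of the block of `inp n k`; length `7 n + 3 k + 4` if `|r| = k` and `j ≤ 3 n` -/
def adr (n k : ℕ) (b : Bool) (r : List Bool) (j : ℕ) : List Bool :=
  pairBits (inp n k) (b :: (r ++ (List.replicate j true ++ List.replicate (3 * n - j) false)))

/-- the block of `inp n k` is in use -/
def Flagged (A : Oracle) (n k : ℕ) : Prop :=
  ∀ j < 3 * n, A (adr n k false (List.replicate k false) j) = true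

/-- all bits of the cell `r` are `c` -/
def Cell (A : Oracle) (n k : ℕ) (r : List Bool) (c : Bool) : Prop :=
  ∀ j < 3 * n, A (adr n k true r j) = c

/-- the language -/
def zlang (n₀ : ℕ) (A : Oracle) : Set (List Bool) :=
  {x | ∃ n k, n₀ ≤ n ∧ k ≤ n ∧ x = inp n k ∧ Flagged A n k ∧
    ∃ r : List Bool, r.length = k ∧ Cell A n k r true}

/-- The algorithm: parse the input; if the block is not in use, say no; otherwise look at a random
cell (`V ⟨w, x⟩` uses the first `k` bits of `w`, `p = X`): constant `true` means yes, constant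
`false` means no, otherwise `?`. All questions can be asked at once (`IsFP.tt`). -/
def P_zpp : Prop := ∀ (n₀ : ℕ), 1 ≤ n₀ → ∀ A : Oracle,
  (∀ n k, n₀ ≤ n → k ≤ n → Flagged A n k →
    (¬ ∃ r r' : List Bool, r.length = k ∧ r'.length = k ∧ Cell A n k r true ∧
      Cell A n k r' false) ∧
    2 ^ k ≤ 2 * Nat.card {r : Fin k → Bool // Cell A n k (List.ofFn r) true ∨
      Cell A n k (List.ofFn r) false}) →
  IsZPP A (zlang n₀ A)

/-- For most oracles no large block looks as if it were in use, and no cell is constant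
(`ranO_cyl_le`, union bound). -/
def P_good : Prop := ∃ n₀ : ℕ, 1 ≤ n₀ ∧ 0 < ranO {A : Oracle | ∀ n k, n₀ ≤ n → k ≤ n →
  ¬ Flagged A n k ∧ ∀ (r : List Bool) (c : Bool), r.length = k → ¬ Cell A n k r c}

/-! ### H. The requirements of the construction -/

/-- The requirements: a machine does not decide the language; a pair of machines (with the constant
`c`) is not a generator for some `m > m₀`. -/
abbrev Rq : Type := Alg ⊕ (Alg × Alg × ℕ × ℕ)

/-- the output length which is used for the block of `inp n k` -/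
def outLen (n k : ℕ) : ℕ := 7 * n + 3 * k + 5

/-- the circuit which looks at the first bit of the cell given by the first `k` bits of `x` -/
def look (n k : ℕ) (B : Oracle) (x : List Bool) : Bool :=
  B (adr n k true ((List.range k).map fun i => x.getD i false) 0)

/-- the seed length -/
def seedLen (D : Alg) (m : ℕ) (B : Oracle) : ℕ := ((D.out B (un m)).getD []).length

open Classical in
/-- What the requirement is about: for a machine, does it accept `inp n k`? For a generator, the
seed length and the number of seeds for which `look` is true. -/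
noncomputable def rval (n k : ℕ) (B : Oracle) : Rq → ℕ × ℕ
  | Sum.inl M => (0, if M.out B (inp n k) = some [true] then 1 else 0)
  | Sum.inr (D, G, c, _) => (seedLen D (outLen n k) B,
      if 2 ^ seedLen D (outLen n k) B ≤ (outLen n k) ^ c then
        Nat.card {s : Fin (seedLen D (outLen n k) B) → Bool // look n k B
          ((G.out B (pairBits (un (outLen n k)) (List.ofFn s))).getD []) = true}
      else 0)

/-- The value of a requirement depends on polynomially many bits of the oracle
(`Alg.out_local`). -/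
def P_local : Prop := ∀ ρ : Rq, ∃ P : Polynomial ℕ, ∀ n k, k ≤ n → ∀ B : Oracle,
  ∃ Q : Finset (List Bool), Q.card ≤ P.eval n ∧ (∀ q ∈ Q, q.length ≤ P.eval n) ∧
    ∀ B' : Oracle, (∀ q ∈ Q, B' q = B q) → rval n k B' ρ = rval n k B ρ

/-- The choice of a block: `7 n + 3 k + 4` is the length of its strings, and
`2 ^ (k + 1) * (3 * n)` bounds their number. Proof: by `¬ Cond f` for a large `C` there are
arbitrarily large `N` with `(log₂ N)^C < f N'` for all `N' ≥ N`; take `n = Nat.log 2 N` and
`k = Nat.log 2 (n ^ (C - 2))`. -/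
def P_stage : Prop := ∀ f : ℕ → ℝ, ¬ Cond f → ∀ (P : Polynomial ℕ) (prev : ℕ),
  ∃ n k, prev < n ∧ 1 ≤ k ∧ k ≤ n ∧ 16 * (P.eval n + 1) ≤ 2 ^ k ∧
    ∀ N : ℕ, 2 ^ (7 * n + 3 * k + 4) ≤ N → ((prev + 2 ^ (k + 1) * (3 * n) : ℕ) : ℝ) ≤ f N

/-- the circuit for `look` has size at most `outLen n k` -/
def P_look : Prop := ∀ n k, 1 ≤ n → ∃ C : Circuit, C.size ≤ outLen n k ∧
  ∀ (B : Oracle) (x : List Bool), C.eval B x = look n k B x

end Pool.Agent.W2helper58.GF
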