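import Pool.Agent.W2helper58.GF.Defs

/-!
# One more piece
-/

namespace Pool.Agent.W2helper58.GF

open Pool.Agent.NPC Pool.Agent.H620R2.Gauge

/-- Zero error is contained in bounded error: run the algorithm with the first half of the random
bits, and if it gives no answer (`[true]` or `[false]`) with the second half; `?` counts as
rejection. The probability of two `?` is at most `1/4`. (`IsFP.seq` or `IsFP.pair` in
`Pool.Agent.H620R2.GaugeR.Seq`; `Fin.appendEquiv` for the counting.) -/
def P_zb : Prop := ∀ (A : Oracle) (L : Set (List Bool)), IsZPP A L → InBPP A L

end Pool.Agent.W2helper58.GF
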